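import Pool.Agent.Lib.MP_19b511_co.Hk.Conv

/-! The branching rule for Jacobi-Trudi determinants and the pairing with hook Schur functions. -/

set_option autoImplicit false

noncomputable section

namespace Pool.Agent.Lib.MP_19b511_co.Hk

open Finset Polynomial

/-- The Jacobi-Trudi determinant with `l` rows. -/
def SD (l : ℕ) (ν : ℕ → ℕ) : Sym :=
  Matrix.det (Matrix.of fun i j : Fin l => G 1 ((ν i : ℤ) - (i : ℕ) + (j : ℕ)))

theorem schur_eq (lam : YoungDiagram) : schur lam = SD (lam.colLen 0) lam.rowLen := by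
  simp only [schur, SD, hh_eq]

/-- Sums of Schur functions with at most `l` rows. -/
def Cone (l : ℕ) : AddSubmonoid Sym :=
  AddSubmonoid.closure {x | ∃ ν : ℕ → ℕ, Antitone ν ∧ ν l = 0 ∧ x = SD l ν}

theorem cc_one (j : ℕ) : cc 1 j = 1 := by
  induction j with
  | zero => simp [cc, rise]
  | succ j ih =>
    have h := cc_succ 1 j
    have h1 : ((j : ℝ) + 1) ≠ 0 := by positivity
    rw [ih, add_comm 1] at h
    exact mul_left_cancel₀ h1 h

theorem cc_zero (β : ℝ) : cc β 0 = 1 := by simp [cc, rise]

theorem cc_neg_one (j : ℕ) : cc (-1) (j + 1) = if j = 0 then -1 else 0 := by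
  rcases j with _ | j
  · simp [cc, rise]
  · simp [cc, rise, prod_range_succ']

theorem T_h (a : ℤ) : T (G 1 a) = C (G 1 a) + X * T (G 1 (a - 1)) := by
  ext1 j
  rcases j with _ | j
  · rw [← Tc_apply, Tc_zero]; simp
  · rw [coeff_add, coeff_C_succ, coeff_X_mul, ← Tc_apply, ← Tc_apply, Tc_G, Tc_G, cc_one, cc_one,
      zero_add]
    congr 2
    push_cast
    ring

theorem T_h_iter (a : ℤ) (d : ℕ) :
    T (G 1 a) = ∑ r ∈ range d, X ^ r * C (G 1 (a - r)) + X ^ d * T (G 1 (a - d)) := by
  induction d with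
  | zero => simp
  | succ d ih =>
    rw [sum_range_succ, ih, T_h (a - d), Nat.cast_succ, sub_sub]
    ring

theorem det_row_next {R : Type} [CommRing R] {n : ℕ} (A B : Matrix (Fin (n + 1)) (Fin (n + 1)) R)
    (c : Fin n → R) (hl : ∀ j, A (Fin.last n) j = B (Fin.last n) j)
    (h : ∀ (i : Fin n) j, A i.castSucc j = B i.castSucc j + c i * A i.succ j) : A.det = B.det := by
  rw [← Matrix.det_submatrix_equiv_self Fin.revPerm A,
    ← Matrix.det_submatrix_equiv_self Fin.revPerm B]
  refine Matrix.det_eq_of_forall_row_eq_smul_add_pred (fun i => c i.rev) (fun j => ?_)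
    fun i j => ?_
  · simp only [Matrix.submatrix_apply, Fin.revPerm_apply, Fin.rev_zero, hl]
  · simp only [Matrix.submatrix_apply, Fin.revPerm_apply, Fin.rev_succ, Fin.rev_castSucc, h]

theorem T_SD (l : ℕ) {ν : ℕ → ℕ} (h : Antitone ν) (h0 : ν (l + 1) = 0) :
    T (SD (l + 1) ν) = ∑ ρ ∈ Fintype.piFinset fun i : Fin (l + 1) => range (ν i - ν (i + 1) + 1),
      X ^ (∑ i, ρ i) * C (Matrix.det (Matrix.of fun i j : Fin (l + 1) =>
        G 1 ((ν i : ℤ) - (i : ℕ) + (j : ℕ) - ρ i))) := by
  have e : ∀ i j : ℕ, (ν i : ℤ) - i + j - (ν i - ν (i + 1) + 1 : ℕ) =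
      (ν (i + 1) : ℤ) - (i + 1 : ℕ) + j := fun i j => by
    have := h (Nat.le_succ i)
    simp only [Nat.succ_eq_add_one] at this
    omega
  rw [SD, AlgHom.map_det, det_row_next _ (fun i : Fin (l + 1) =>
    ∑ r ∈ range (ν i - ν (i + 1) + 1), fun j : Fin (l + 1) =>
      X ^ r * C (G 1 ((ν i : ℤ) - (i : ℕ) + (j : ℕ) - r)))
    fun i : Fin l => X ^ (ν i - ν (i + 1) + 1)]
  · refine (Matrix.detRowAlternating.toMultilinearMap.map_sum_finset _ _).trans
      (sum_congr rfl fun ρ _ => ?_)
    rw [← prod_pow_eq_pow_sum, RingHom.map_det]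
    exact Matrix.det_mul_column (fun i => (X : Sym[X]) ^ ρ i) _
  · intro j
    simp only [AlgHom.mapMatrix_apply, Matrix.map_apply, Matrix.of_apply, Finset.sum_apply,
      Fin.val_last]
    rw [T_h_iter _ (ν l - ν (l + 1) + 1), e, G_neg 1 _ (by have := j.2; omega)]
    simp
  · intro i j
    simp only [AlgHom.mapMatrix_apply, Matrix.map_apply, Matrix.of_apply, Finset.sum_apply,
      Fin.val_castSucc, Fin.val_succ]
    rw [T_h_iter _ (ν i - ν (i + 1) + 1), e]

theorem Tc_mem {l : ℕ} (t : ℕ) {v : Sym} (hv : v ∈ Cone (l + 1)) : Tc t v ∈ Cone (l + 1) := by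
  induction hv using AddSubmonoid.closure_induction with
  | zero => simp
  | add x y _ _ hx hy => rw [map_add]; exact add_mem hx hy
  | mem x hx =>
    obtain ⟨ν, h, h0, rfl⟩ := hx
    rw [Tc_apply, T_SD l h h0, finsetSum_coeff]
    refine sum_mem fun ρ hρ => ?_
    rw [mul_comm, coeff_C_mul_X_pow]
    split_ifs
    · have h1 : ∀ i : Fin (l + 1), ρ i ≤ ν i - ν (i + 1) := fun i =>
        Nat.lt_succ_iff.1 (mem_range.1 (Fintype.mem_piFinset.1 hρ i))
      refine AddSubmonoid.subset_closure ⟨fun i => if hi : i < l + 1 then ν i - ρ ⟨i, hi⟩ else 0,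
        antitone_nat_of_succ_le fun i => ?_, by simp, ?_⟩
      · split_ifs with h2 h3 h3
        · have := h1 ⟨i, h3⟩
          have := h (Nat.le_succ i)
          simp only [Nat.succ_eq_add_one] at *
          omega
        · omega
        · exact Nat.zero_le _
        · exact le_rfl
      · rw [SD]
        congr 2
        funext i j
        have := h1 i
        rw [dif_pos i.2]
        congr 1
        simp only [Fin.eta]
        omega
    · exact zero_mem _

/-- The specialisation dual to the functions `G (-1) s`. -/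
def eps : Sym →ₐ[ℝ] ℝ[X] := MvPolynomial.aeval fun k : ℕ => -X ^ (k + 1)

theorem form_neg (s : ℕ) (w : Sym) : form 1 (G (-1) s) w = (eps w).coeff s := by
  induction w using MvPolynomial.induction_on' with
  | add p q hp hq => rw [form_add_right, map_add, coeff_add, hp, hq]
  | monomial d a =>
    have h1 : (d.prod fun k m => (-X ^ (k + 1) : ℝ[X]) ^ m) =
        C ((-1) ^ d.degree) * X ^ psize d := by
      induction d using Finsupp.induction_linear with
      | zero => simp [psize]
      | add f g hf hg =>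
        rw [Finsupp.prod_add_index' (by simp) (fun _ _ _ => pow_add _ _ _), hf, hg, map_add,
          psize_add, pow_add, pow_add, map_mul]
        ring
      | single k m =>
        rw [Finsupp.prod_single_index (by simp), Finsupp.degree_single, neg_pow, ← pow_mul]
        simp [psize, Finsupp.weight_single, mul_comm]
    have h2 := (zee_pos d).ne'
    rw [form_comm, form_monomial, coeff_G, eps, MvPolynomial.aeval_monomial, h1, ← C_eq_algebraMap,
      coeff_C_mul, coeff_C_mul_X_pow, wt]
    by_cases h : psize d = s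
    · rw [if_pos (by omega), if_pos h.symm]
      field_simp
      simp
    · rw [if_neg (by omega), if_neg (Ne.symm h)]
      simp

theorem eps_h (a : ℤ) : eps (G 1 a) = if a = 0 then 1 else if a = 1 then -X else 0 := by
  rcases lt_or_ge a 0 with h | h
  · rw [G_neg 1 a h, if_neg h.ne, if_neg (by omega), map_zero]
  obtain ⟨n, rfl⟩ := Int.eq_ofNat_of_zero_le h
  ext s
  rw [← form_neg, form_comm, ← mul_one (G 1 n), form_G_mul (one_mul 1), form_one, Tc_G,
    MvPolynomial.coeff_smul, coeff_G]
  rcases n with _ | _ | n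
  · simp [cc_zero, psize, zee_zero, coeff_one, eq_comm]
  · rw [cc_neg_one]
    by_cases h1 : s = 1
    · simp [psize, zee_zero, h1]
    · have h2 : ¬ (0 : ℤ) = s - 1 := by omega
      simp [psize, coeff_X, h2, Ne.symm h1]
  · rw [cc_neg_one, if_neg (by omega), zero_smul, if_neg (by omega), if_neg (by omega), coeff_zero]

theorem det_split {R : Type} [CommRing R] {n : ℕ} (M : Matrix (Fin (n + 1)) (Fin (n + 1)) R)
    (h : (∀ j : Fin n, M 0 j.succ = 0) ∨ ∀ i : Fin n, M i.succ 0 = 0) :
    M.det = M 0 0 * (M.submatrix Fin.succ Fin.succ).det := by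
  rcases h with h | h
  · simp [Matrix.det_succ_row_zero, Fin.sum_univ_succ, h]
  · simp [Matrix.det_succ_column_zero, Fin.sum_univ_succ, h]

theorem eps_SD (l : ℕ) : ∀ ν : ℕ → ℕ, Antitone ν →
    eps (SD l ν) = 0 ∨ ∃ c : ℕ, eps (SD l ν) = (-X) ^ c := by
  induction l with
  | zero => exact fun ν _ => Or.inr ⟨0, by simp [SD]⟩
  | succ l ih =>
    intro ν h
    have h1 : eps (SD (l + 1) ν) = eps (G 1 (ν 0)) * eps (SD l fun i => ν (i + 1)) := by
      rw [SD, SD, AlgHom.map_det, AlgHom.map_det, det_split]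
      · refine congrArg₂ _ (by simp) (congrArg _ ?_)
        · ext1 i j
          simp only [AlgHom.mapMatrix_apply, Matrix.map_apply, Matrix.of_apply,
            Matrix.submatrix_apply, Fin.val_succ]
          congr 2
          push_cast
          ring
      · simp only [AlgHom.mapMatrix_apply, Matrix.map_apply, Matrix.of_apply, Fin.val_succ,
          Fin.val_zero, eps_h]
        rcases Nat.eq_zero_or_pos (ν 0) with h0 | h0
        · refine Or.inr fun i => ?_
          have := h (Nat.zero_le (i + 1))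
          rw [if_neg (by omega), if_neg (by omega)]
        · exact Or.inl fun j => by rw [if_neg (by omega), if_neg (by omega)]
    rw [h1, eps_h]
    rcases ih (fun i => ν (i + 1)) fun i j hij => h (Nat.succ_le_succ hij) with h2 | ⟨c, h2⟩
    · exact Or.inl (by rw [h2, mul_zero])
    · rw [h2]
      split_ifs
      · exact Or.inr ⟨c, one_mul _⟩
      · exact Or.inr ⟨c + 1, (pow_succ' _ _).symm⟩
      · exact Or.inl (zero_mul _)

/-- Specialisation to one even and one odd variable. -/
def sup : Sym →+* ℝ[X][X] := (mapRingHom eps.toRingHom).comp T.toRingHom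

theorem sup_coeff (r : ℕ) (v : Sym) : (sup v).coeff r = eps (Tc r v) := by
  simp [sup, Tc_apply]

theorem sup_h (a : ℤ) : sup (G 1 a) = C (eps (G 1 a)) + X * sup (G 1 (a - 1)) := by
  have := congrArg (mapRingHom eps.toRingHom) (T_h a)
  simpa [sup] using this

theorem sup_SD (l : ℕ) {ν : ℕ → ℕ} (h : Antitone ν) :
    sup (SD (l + 1) ν) = sup (G 1 (ν 0)) * C (eps (SD l fun i => ν (i + 1))) := by
  rw [SD, SD, RingHom.map_det, AlgHom.map_det, RingHom.map_det,
    Matrix.det_eq_of_forall_col_eq_smul_add_pred (B := Matrix.of fun i j : Fin (l + 1) =>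
      if j = 0 then sup (G 1 ((ν i : ℤ) - (i : ℕ))) else
        C (eps (G 1 ((ν i : ℤ) - (i : ℕ) + (j : ℕ))))) (fun _ => X), det_split]
  · refine congrArg₂ _ (by simp) (congrArg _ ?_)
    · ext1 i j
      simp only [AlgHom.mapMatrix_apply, RingHom.mapMatrix_apply, Matrix.map_apply,
        Matrix.of_apply, Matrix.submatrix_apply, Fin.val_succ, Fin.succ_ne_zero, if_false]
      congr 3
      push_cast
      ring
  · simp only [Matrix.of_apply, Fin.val_succ, Fin.val_zero, Fin.succ_ne_zero, if_false, if_true]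
    rcases Nat.eq_zero_or_pos (ν 0) with h0 | h0
    · refine Or.inr fun i => ?_
      have := h (Nat.zero_le (i + 1))
      rw [G_neg 1 _ (by omega), map_zero]
    · exact Or.inl fun j => by rw [eps_h, if_neg (by omega), if_neg (by omega), map_zero]
  · intro i
    simp
  · intro i j
    simp only [RingHom.mapMatrix_apply, Matrix.map_apply, Matrix.of_apply, Fin.val_succ,
      Fin.val_castSucc, Fin.succ_ne_zero, if_false]
    rw [sup_h]
    congr 4
    push_cast
    ring

theorem coeff_negX (c s : ℕ) : ((-X : ℝ[X]) ^ c).coeff s = if s = c then (-1) ^ c else 0 := by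
  rw [neg_pow, show (-1 : ℝ[X]) = C (-1) by simp, ← C_pow, coeff_C_mul_X_pow]

theorem form_Psi {q b : ℕ} (hq : b < q) {l : ℕ} {v : Sym} (hv : v ∈ Cone (l + 1)) :
    ∃ N : ℕ, (-1) ^ b * form 1 (Psi q b) v = N := by
  induction hv using AddSubmonoid.closure_induction with
  | zero => exact ⟨0, by rw [← formL_apply]; simp⟩
  | add x y _ _ hx hy =>
    obtain ⟨N, hN⟩ := hx
    obtain ⟨M, hM⟩ := hy
    exact ⟨N + M, by rw [form_add_right, mul_add, hN, hM, Nat.cast_add]⟩
  | mem x hx =>
    obtain ⟨ν, h, -, rfl⟩ := hx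
    have h1 : form 1 (Psi q b) (SD (l + 1) ν) = ∑ s ∈ range (b + 1),
        (eps (G 1 ((ν 0 : ℤ) - q + s)) * eps (SD l fun i => ν (i + 1))).coeff s := by
      rw [Psi, form_sum_left]
      refine sum_congr rfl fun s hs => ?_
      have hs2 : s ≤ q := by have := mem_range.1 hs; omega
      rw [← Nat.cast_sub hs2, form_G_mul (one_mul 1), form_neg, ← sup_coeff, sup_SD l h,
        coeff_mul_C, sup_coeff, Tc_G, cc_one, one_smul]
      congr 4
      omega
    rw [h1]
    rcases eps_SD l (fun i => ν (i + 1)) fun i j hij => h (Nat.succ_le_succ hij) with h2 | ⟨c, h2⟩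
    · exact ⟨0, by simp [h2]⟩
    have h3 : ∀ s : ℕ, (eps (G 1 ((ν 0 : ℤ) - q + s)) * (-X) ^ c).coeff s =
        if ν 0 + c = q then ((if s = c then (-1) ^ c else 0) +
          if s = c + 1 then (-1) ^ (c + 1) else 0) else 0 := by
      intro s
      rw [eps_h]
      by_cases a0 : (ν 0 : ℤ) - q + s = 0
      · rw [if_pos a0, one_mul, coeff_negX]
        split_ifs <;> first | omega | simp
      · by_cases a1 : (ν 0 : ℤ) - q + s = 1
        · rw [if_neg a0, if_pos a1, ← pow_succ', coeff_negX]
          split_ifs <;> first | omega | simp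
        · rw [if_neg a0, if_neg a1, zero_mul, coeff_zero]
          split_ifs <;> first | omega | simp
    simp only [h2, h3]
    by_cases h4 : ν 0 + c = q
    · simp only [if_pos h4, sum_add_distrib, sum_ite_eq', mem_range]
      split_ifs with h5 h6 h6
      · exact ⟨0, by rw [pow_succ]; simp⟩
      · obtain rfl : c = b := by omega
        exact ⟨1, by rw [add_zero, ← mul_pow]; simp⟩
      · omega
      · exact ⟨0, by simp⟩
    · exact ⟨0, by simp [h4]⟩

theorem form_U {q b : ℕ} (hq : b < q) {l : ℕ} (k : ℕ) : ∀ (r : ℕ) {v : Sym}, v ∈ Cone (l + 1) →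
    ∃ N : ℕ, (-1) ^ b * form 1 (U k r * Psi q b) v = N := by
  induction k with
  | zero =>
    intro r v hv
    rw [U, pow_zero, PowerSeries.coeff_one]
    split_ifs
    · rw [one_mul]; exact form_Psi hq hv
    · exact ⟨0, by rw [zero_mul, form_comm, ← formL_apply]; simp⟩
  | succ k ih =>
    intro r v hv
    have h1 : ∀ i, ∃ N : ℕ, (-1) ^ b *
        form 1 ((if i = 0 then 0 else G 1 (i : ℕ) * U k (r - i)) * Psi q b) v = N := by
      intro i
      split_ifs
      · exact ⟨0, by rw [zero_mul, form_comm, ← formL_apply]; simp⟩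
      · rw [mul_assoc, form_G_mul (one_mul 1)]
        exact ih _ (Tc_mem i hv)
    choose N hN using h1
    exact ⟨∑ i ∈ range (r + 1), N i, by
      rw [U_succ, sum_mul, form_sum_left, mul_sum, Nat.cast_sum]
      exact sum_congr rfl fun i _ => hN i⟩

end Pool.Agent.Lib.MP_19b511_co.Hk
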