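import Pool.Agent.Lib.MP_19b511_co.Shift

/-! Generating series of the functions `G β r`. -/

set_option autoImplicit false

noncomputable section

namespace Pool.Agent.Lib.MP_19b511_co.Hk

open Finset

/-- Generating series of `G β`. -/
def GS (β : ℝ) : PowerSeries Sym := PowerSeries.mk fun r => G β r

/-- Generating series of the power sums. -/
def PS : PowerSeries Sym := PowerSeries.mk fun k => MvPolynomial.X k

/-- Scalars as series. -/
abbrev sc (β : ℝ) : PowerSeries Sym := algebraMap ℝ _ β

/-- The Euler operator. -/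
def eul (F : PowerSeries Sym) : PowerSeries Sym := PowerSeries.X * PowerSeries.derivative Sym F

theorem coeff_GS (β : ℝ) (r : ℕ) : PowerSeries.coeff r (GS β) = G β r := by simp [GS]

theorem coeff_sc (β : ℝ) (F : PowerSeries Sym) (r : ℕ) :
    PowerSeries.coeff r (sc β * F) = β • PowerSeries.coeff r F := by
  rw [← Algebra.smul_def, PowerSeries.coeff_smul]

theorem coeff_der (F : PowerSeries Sym) (r : ℕ) :
    PowerSeries.coeff r (PowerSeries.derivative Sym F) =
      ((r : ℝ) + 1) • PowerSeries.coeff (r + 1) F := by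
  rw [PowerSeries.coeff_derivative, MvPolynomial.smul_eq_C_mul, mul_comm]
  simp

theorem coeff_eul (F : PowerSeries Sym) (r : ℕ) :
    PowerSeries.coeff r (eul F) = (r : ℝ) • PowerSeries.coeff r F := by
  cases r with
  | zero => simp [eul]
  | succ r => rw [eul, PowerSeries.coeff_succ_X_mul, coeff_der]; simp

theorem coeff_mul_range (F H : PowerSeries Sym) (r : ℕ) :
    PowerSeries.coeff r (F * H) =
      ∑ k ∈ range (r + 1), PowerSeries.coeff k F * PowerSeries.coeff (r - k) H := by
  rw [PowerSeries.coeff_mul, Nat.sum_antidiagonal_eq_sum_range_succ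
    (fun i j => PowerSeries.coeff i F * PowerSeries.coeff j H)]

theorem der_GS (β : ℝ) : PowerSeries.derivative Sym (GS β) = sc β * (PS * GS β) := by
  ext1 r
  have h := G_rec β (r + 1)
  rw [Nat.cast_add, Nat.cast_one] at h
  rw [coeff_der, coeff_sc, coeff_mul_range, coeff_GS, h]
  congr 1
  refine sum_congr rfl fun k hk => ?_
  have hk2 : k ≤ r := Nat.lt_succ_iff.1 (mem_range.1 hk)
  rw [coeff_GS, PS, PowerSeries.coeff_mk]
  congr 2
  omega

theorem eq_GS {β : ℝ} {F : PowerSeries Sym} (h0 : PowerSeries.coeff 0 F = 1)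
    (h : PowerSeries.derivative Sym F = sc β * (PS * F)) : F = GS β := by
  ext1 r
  induction r using Nat.strong_induction_on with
  | _ r ih =>
    cases r with
    | zero => rw [h0, coeff_GS, Nat.cast_zero, G_zero]
    | succ r =>
      have h1 : ((r : ℝ) + 1) ≠ 0 := by positivity
      apply smul_right_injective Sym h1
      simp only
      rw [← coeff_der, ← coeff_der, h, der_GS, coeff_sc, coeff_sc, coeff_mul_range,
        coeff_mul_range]
      congr 1
      exact sum_congr rfl fun k _ => by rw [ih (r - k) (by omega)]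

theorem GS_add (β γ : ℝ) : GS β * GS γ = GS (β + γ) := by
  refine eq_GS ?_ ?_
  · rw [coeff_mul_range]
    simp [coeff_GS, G_zero]
  · rw [Derivation.leibniz, der_GS, der_GS, smul_eq_mul, smul_eq_mul, sc, sc, sc, map_add]
    ring

theorem GS_zero : GS 0 = 1 := (eq_GS (by simp) (by simp [sc])).symm

theorem GS_nat (N : ℕ) : GS N = GS 1 ^ N := by
  induction N with
  | zero => simp [GS_zero]
  | succ N ih => rw [Nat.cast_succ, ← GS_add, ih, pow_succ]

/-- Truncated convolution, a hook Schur function up to sign. -/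
def Psi (q b : ℕ) : Sym := ∑ s ∈ range (b + 1), G 1 ((q : ℤ) - s) * G (-1) s

/-- The hook Jack function up to a scalar. -/
def Phi (β : ℝ) (n b : ℕ) : Sym :=
  ∑ s ∈ range (b + 1), (((n - s : ℕ) : ℝ) + β * s) • (G β (n - s : ℕ) * G (-1) s)

theorem Psi_eq_zero {q b : ℕ} (h0 : 0 < q) (h : q ≤ b) : Psi q b = 0 := by
  have h1 := congrArg (PowerSeries.coeff q) (GS_add (-1) 1)
  rw [neg_add_cancel, GS_zero, coeff_mul_range, PowerSeries.coeff_one, if_neg h0.ne'] at h1
  rw [Psi, ← sum_subset (range_subset_range.2 (Nat.succ_le_succ h)), ← h1]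
  · refine sum_congr rfl fun s hs => ?_
    have hs2 : s ≤ q := Nat.lt_succ_iff.1 (mem_range.1 hs)
    rw [coeff_GS, coeff_GS, mul_comm, Nat.cast_sub hs2]
  · intro s _ hs
    rw [G_neg 1 _ (by simp only [mem_range] at hs; omega), zero_mul]

theorem Phi_full (β : ℝ) (n : ℕ) : Phi β n n = 0 := by
  have h1 : GS (-1) * eul (GS β) + sc β * (eul (GS (-1)) * GS β) = 0 := by
    rw [eul, eul, der_GS, der_GS, sc, sc, map_neg, map_one]
    ring
  have h2 := congrArg (PowerSeries.coeff n) h1
  rw [map_add, coeff_sc, coeff_mul_range, coeff_mul_range, smul_sum, ← sum_add_distrib,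
    map_zero] at h2
  rw [Phi, ← h2]
  refine sum_congr rfl fun s _ => ?_
  rw [coeff_eul, coeff_eul, coeff_GS, coeff_GS, mul_smul_comm, smul_mul_assoc, smul_smul, add_smul,
    mul_comm (G β _)]

theorem term_id (β : ℝ) (s N : ℕ) : ((N : ℝ) + β * s) • G β N =
    β • ∑ r ∈ range (N + 1), ((s + r : ℕ) : ℝ) • (G 1 r * G (β - 1) (N - r : ℕ)) := by
  have h0 : GS 1 * GS (β - 1) = GS β := by rw [GS_add]; congr 1; ring
  have h1 : eul (GS β) + sc β * (sc s * GS β) =
      sc β * ((sc s * GS 1 + eul (GS 1)) * GS (β - 1)) := by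
    rw [eul, eul, der_GS, der_GS, ← h0, show sc 1 = 1 from map_one _]
    ring
  have h2 := congrArg (PowerSeries.coeff N) h1
  rw [map_add, coeff_eul, coeff_sc, coeff_sc, coeff_sc, coeff_GS, coeff_mul_range, smul_smul,
    ← add_smul] at h2
  rw [h2]
  congr 1
  refine sum_congr rfl fun r _ => ?_
  rw [map_add, coeff_sc, coeff_eul, coeff_GS, coeff_GS, ← add_smul, smul_mul_assoc, Nat.cast_add]

theorem Phi_eq (β : ℝ) {n b : ℕ} (h : b ≤ n) : Phi β n b =
    β • ∑ q ∈ range (n + 1), (q : ℝ) • (G (β - 1) (n - q : ℕ) * Psi q b) := by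
  simp only [Psi, mul_sum, smul_sum]
  rw [sum_comm, Phi]
  refine sum_congr rfl fun s hs => ?_
  have hs2 : s ≤ n := (Nat.lt_succ_iff.1 (mem_range.1 hs)).trans h
  obtain ⟨N, rfl⟩ := Nat.exists_eq_add_of_le hs2
  rw [Nat.add_sub_cancel_left, ← smul_mul_assoc, term_id, add_assoc, sum_range_add _ s (N + 1),
    sum_eq_zero (s := range s), zero_add, smul_sum, sum_mul]
  · refine sum_congr rfl fun r hr => ?_
    have e1 : ((s + r : ℕ) : ℤ) - s = r := by omega
    have e2 : s + N - (s + r) = N - r := by omega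
    rw [e1, e2, smul_mul_assoc, smul_mul_assoc]
    congr 2
    ring
  · intro q hq
    rw [G_neg 1 _ (by simp only [mem_range] at hq; omega)]
    simp

/-- Coefficients of the powers of `H - 1`. -/
def U (k r : ℕ) : Sym := PowerSeries.coeff r ((GS 1 - 1) ^ k)

theorem U_of_lt {k r : ℕ} (h : r < k) : U k r = 0 := by
  have h1 : PowerSeries.X ∣ GS 1 - 1 := by
    rw [PowerSeries.X_dvd_iff, ← PowerSeries.coeff_zero_eq_constantCoeff_apply, map_sub, coeff_GS]
    simp [G_zero]
  exact PowerSeries.X_pow_dvd_iff.1 (pow_dvd_pow_of_dvd h1 k) r h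

theorem U_succ (k r : ℕ) :
    U (k + 1) r = ∑ i ∈ range (r + 1), if i = 0 then 0 else G 1 i * U k (r - i) := by
  rw [U, pow_succ', coeff_mul_range]
  refine sum_congr rfl fun i _ => ?_
  rw [map_sub, coeff_GS, PowerSeries.coeff_one]
  split_ifs with hi
  · simp [hi, G_zero]
  · rw [sub_zero, U]

theorem G_nat (N r : ℕ) : G N r = ∑ k ∈ range (r + 1), (N.choose k : ℝ) • U k r := by
  have h1 : GS N = ∑ k ∈ range (N + 1), sc (N.choose k) * (GS 1 - 1) ^ k := by
    rw [GS_nat, ← sub_add_cancel (GS 1) 1, add_pow]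
    refine sum_congr rfl fun k _ => ?_
    rw [one_pow, mul_one, mul_comm, sc, map_natCast, add_sub_cancel_right]
  rw [← coeff_GS, h1, map_sum]
  simp only [coeff_sc]
  rw [sum_subset (range_subset_range.2 (by omega : N + 1 ≤ N + r + 1)),
    sum_subset (range_subset_range.2 (by omega : r + 1 ≤ N + r + 1))]
  · rfl
  · intro k _ hk
    rw [U_of_lt (by simp only [mem_range] at hk; omega), smul_zero]
  · intro k _ hk
    rw [Nat.choose_eq_zero_of_lt (by simp only [mem_range] at hk; omega), Nat.cast_zero, zero_smul]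

theorem G_binom (γ : ℝ) (r : ℕ) : G γ r =
    ∑ k ∈ range (r + 1), ((descPochhammer ℝ k).eval γ / k.factorial) • U k r := by
  ext d
  let p : Polynomial ℝ := (if (psize d : ℤ) = r then
      Polynomial.C (zee d)⁻¹ * Polynomial.X ^ d.degree else 0) -
    ∑ k ∈ range (r + 1), Polynomial.C (MvPolynomial.coeff d (U k r) / k.factorial) *
      descPochhammer ℝ k
  have h1 : ∀ x : ℝ, p.eval x = MvPolynomial.coeff d (G x r) - MvPolynomial.coeff d
      (∑ k ∈ range (r + 1), ((descPochhammer ℝ k).eval x / k.factorial) • U k r) := by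
    intro x
    rw [Polynomial.eval_sub, coeff_G, MvPolynomial.coeff_sum, Polynomial.eval_finsetSum]
    congr 1
    · split_ifs
      · simp [div_eq_inv_mul]
      · simp
    · refine sum_congr rfl fun k _ => ?_
      rw [Polynomial.eval_mul, Polynomial.eval_C, MvPolynomial.coeff_smul, smul_eq_mul]
      ring
  have h2 : p = 0 := by
    refine Polynomial.eq_zero_of_infinite_isRoot p
      (Set.infinite_of_injective_forall_mem (f := fun N : ℕ => (N : ℝ)) Nat.cast_injective
        fun N => ?_)
    rw [Set.mem_ofPred_eq, Polynomial.IsRoot, h1, G_nat, sub_eq_zero]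
    congr 1
    refine sum_congr rfl fun k _ => ?_
    have : (k.factorial : ℝ) ≠ 0 := by positivity
    rw [descPochhammer_eval_eq_descFactorial, Nat.descFactorial_eq_factorial_mul_choose,
      Nat.cast_mul, mul_div_cancel_left₀ _ this]
  have h3 := h1 γ
  rw [h2, Polynomial.eval_zero] at h3
  exact sub_eq_zero.1 h3.symm

end Pool.Agent.Lib.MP_19b511_co.Hk
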