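import Pool.Agent.Lib.MP_19b511_co.Hk.Conv

/-! Young diagrams, hooks, and monomial coefficients. -/

set_option autoImplicit false

noncomputable section

namespace Pool.Agent.Lib.MP_19b511_co.Hk

open Finset MvPolynomial

theorem rowLen_eq_zero {ν : YoungDiagram} {i : ℕ} : ν.rowLen i = 0 ↔ ν.colLen 0 ≤ i := by
  rw [← not_lt, ← YoungDiagram.mem_iff_lt_colLen, YoungDiagram.mem_iff_lt_rowLen]
  omega

theorem card_biUnion_row (ν : YoungDiagram) (k : ℕ) :
    ((range k).biUnion ν.row).card = ∑ i ∈ range k, ν.rowLen i := by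
  simp only [YoungDiagram.rowLen_eq_card]
  refine card_biUnion fun i _ j _ hij => ?_
  rw [Function.onFun, disjoint_left]
  intro c h1 h2
  rw [YoungDiagram.mem_row_iff] at h1 h2
  exact hij (h1.2.symm.trans h2.2)

theorem sum_row_le (ν : YoungDiagram) (k : ℕ) : ∑ i ∈ range k, ν.rowLen i ≤ ν.card := by
  rw [← card_biUnion_row]
  refine card_le_card fun c hc => ?_
  simp only [mem_biUnion, YoungDiagram.mem_row_iff] at hc
  obtain ⟨_, _, h, _⟩ := hc
  exact h

theorem sum_row_eq {ν : YoungDiagram} {k : ℕ} (h : ν.rowLen k = 0) :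
    ∑ i ∈ range k, ν.rowLen i = ν.card := by
  refine (sum_row_le ν k).antisymm ?_
  rw [← card_biUnion_row]
  refine card_le_card fun c hc => ?_
  simp only [mem_biUnion, YoungDiagram.mem_row_iff, mem_range]
  refine ⟨c.1, ?_, hc, rfl⟩
  have h1 : (c.1, 0) ∈ ν := ν.up_left_mem le_rfl (Nat.zero_le c.2) hc
  exact (YoungDiagram.mem_iff_lt_colLen.1 h1).trans_le (rowLen_eq_zero.1 h)

theorem rowLen_card (ν : YoungDiagram) : ν.rowLen ν.card = 0 := by
  rw [rowLen_eq_zero, YoungDiagram.colLen_eq_card]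
  exact card_le_card (filter_subset _ _)

theorem iter_stab (N : ℕ) : ∀ (M : ℕ) (e : ℕ → ℕ) (f : Sym), N ≤ M → (∀ i, N ≤ i → e i = 0) →
    iter M e f = iter N e f := by
  induction N with
  | zero =>
    intro M e f _ h
    rw [show e = fun _ => 0 from funext fun i => h i (Nat.zero_le i), iter_zero_fun, iter]
  | succ N ih =>
    intro M e f hM h
    obtain ⟨M, rfl⟩ : ∃ K, M = K + 1 := ⟨M - 1, by omega⟩
    rw [iter, iter, ih M _ _ (by omega) fun i hi => h _ (by omega)]

theorem mcoef_iter {ν : YoungDiagram} {N : ℕ} (h : ν.rowLen N = 0) (f : Sym) :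
    mcoef ν f = coeff 0 (iter N ν.rowLen f) := by
  have h1 : ∀ K, ν.rowLen K = 0 → ∀ i, K ≤ i → ν.rowLen i = 0 := fun K hK i hi =>
    Nat.eq_zero_of_le_zero (hK ▸ ν.rowLen_anti K i hi)
  rw [mcoef_eq, ← iter_stab ν.card (max ν.card N) _ _ (le_max_left _ _) (h1 _ (rowLen_card ν)),
    iter_stab N _ _ _ (le_max_right _ _) (h1 _ h)]

theorem form_prod {α β : ℝ} (h : β * α = 1) (N : ℕ) : ∀ (e : ℕ → ℕ) (f : Sym),
    form α (∏ i ∈ range N, G β (e i)) f = coeff 0 (iter N e f) := by
  induction N with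
  | zero => intro e f; rw [prod_range_zero, form_one, iter]
  | succ N ih => intro e f; rw [prod_range_succ', mul_comm, form_G_mul h, ih, iter]

theorem prod_map_range {M : Type} [CommMonoid M] (f : ℕ → M) (N : ℕ) :
    ((List.range N).map f).prod = ∏ i ∈ range N, f i := by
  induction N with
  | zero => simp
  | succ N ih => rw [List.range_succ, List.map_append, List.prod_append, ih, prod_range_succ]; simp

theorem sum_map_range (f : ℕ → ℕ) (N : ℕ) :
    ((List.range N).map f).sum = ∑ i ∈ range N, f i := by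
  induction N with
  | zero => simp
  | succ N ih => rw [List.range_succ, List.map_append, List.sum_append, ih, sum_range_succ]; simp

theorem exists_diagram {α β : ℝ} (h : β * α = 1) (L : List ℕ) (hL : ∀ a ∈ L, 0 < a) :
    ∃ ν : YoungDiagram, ν.card = L.sum ∧ ν.colLen 0 = L.length ∧ (∀ a ∈ L, a ≤ ν.rowLen 0) ∧
      ∀ f, form α (L.map fun a : ℕ => G β a).prod f = mcoef ν f := by
  have hp := List.perm_insertionSort (· ≥ ·) L
  set ν := YoungDiagram.ofRowLens _ (List.sortedGE_insertionSort (l := L))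
  have h1 : ν.rowLens.Perm L := by
    rw [YoungDiagram.rowLens_ofRowLens_eq_self fun x hx => hL x (hp.mem_iff.1 hx)]
    exact hp
  have h2 : ν.rowLen (ν.colLen 0) = 0 := rowLen_eq_zero.2 le_rfl
  refine ⟨ν, ?_, ?_, fun a ha => ?_, fun f => ?_⟩
  · rw [← h1.sum_eq, YoungDiagram.rowLens, sum_map_range, sum_row_eq h2]
  · rw [← h1.length_eq, YoungDiagram.length_rowLens]
  · obtain ⟨i, -, rfl⟩ := List.mem_map.1 (h1.mem_iff.2 ha)
    exact ν.rowLen_anti 0 i (Nat.zero_le i)
  · rw [← (h1.map _).prod_eq, YoungDiagram.rowLens, List.map_map, prod_map_range,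
      mcoef_iter h2, ← form_prod h]
    rfl

/-- `μ` is the hook with first row `m + 1` and leg `b`. -/
def IsHook (μ : YoungDiagram) (m b : ℕ) : Prop :=
  ∀ i, μ.rowLen i = if i = 0 then m + 1 else if i ≤ b then 1 else 0

theorem exists_hook {μ : YoungDiagram} (h : μ.rowLen 1 ≤ 1) (h0 : 0 < μ.card) :
    ∃ m b, IsHook μ m b := by
  have h1 : μ.rowLen 0 ≠ 0 := fun h2 => by
    have := sum_row_eq h2
    simp at this
    omega
  have h2 : ¬ μ.colLen 0 ≤ 0 := mt rowLen_eq_zero.2 h1
  refine ⟨μ.rowLen 0 - 1, μ.colLen 0 - 1, fun i => ?_⟩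
  split_ifs with a b
  · rw [a]; omega
  · have := μ.rowLen_anti 1 i (by omega)
    have : μ.rowLen i ≠ 0 := mt rowLen_eq_zero.1 (by omega)
    omega
  · exact rowLen_eq_zero.2 (by omega)

namespace IsHook

variable {μ : YoungDiagram} {m b : ℕ} (H : IsHook μ m b)
include H

theorem sum (k : ℕ) : ∑ i ∈ range (k + 1), μ.rowLen i = m + 1 + min k b := by
  induction k with
  | zero => simp [H 0]
  | succ k ih =>
    rw [sum_range_succ, ih, H, if_neg (Nat.succ_ne_zero k)]
    split_ifs <;> omega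

theorem card : μ.card = m + 1 + b := by
  rw [← sum_row_eq (k := b + 1) (by simp [H (b + 1)]), H.sum, min_self]

theorem dom {ν : YoungDiagram} (hν : ν.card = μ.card) (h : ν.rowLen b ≠ 0) : Dom ν μ := by
  rintro (_ | k)
  · simp
  rw [H.sum]
  rw [H.card] at hν
  rcases le_total b k with h1 | h1
  · have := sum_row_le ν (k + 1)
    omega
  · obtain ⟨t, rfl⟩ := Nat.exists_eq_add_of_le h1
    have h2 := sum_row_le ν (k + 1 + t)
    have h3 : ∑ _i ∈ range t, 1 ≤ ∑ i ∈ range t, ν.rowLen (k + 1 + i) := sum_le_sum fun i hi => by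
      have := ν.rowLen_anti (k + 1 + i) (k + t) (by have := mem_range.1 hi; omega)
      omega
    rw [sum_range_add] at h2
    simp only [sum_const, card_range, smul_eq_mul, mul_one] at h3
    omega

theorem eq_of_dom {ν : YoungDiagram} (hν : ν.card = μ.card) (h : Dom ν μ)
    (h1 : ν.colLen 0 ≤ b + 1) (h2 : m + 1 ≤ ν.rowLen 0) : ν = μ := by
  rw [H.card] at hν
  have h3 : ν.rowLen b ≠ 0 := fun h3 => by
    have h4 := h b
    rw [sum_row_eq h3] at h4
    have h5 := H.sum b
    have h6 := H b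
    rw [sum_range_succ, min_self] at h5
    split_ifs at h6 <;> omega
  have h4 := sum_row_eq (rowLen_eq_zero.2 h1)
  have h5 : ∀ i ∈ range b, 1 ≤ ν.rowLen (i + 1) := fun i hi => by
    have := ν.rowLen_anti (i + 1) b (mem_range.1 hi)
    omega
  have h6 := sum_le_sum h5
  rw [sum_range_succ'] at h4
  have h7 : ∑ _i ∈ range b, 1 = b := by simp
  have h8 := (sum_eq_sum_iff_of_le h5).1 (by omega)
  have h9 : ∀ i, ν.rowLen i = μ.rowLen i := fun i => by
    rw [H]
    split_ifs with a c
    · rw [a]; omega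
    · obtain ⟨i, rfl⟩ : ∃ j, i = j + 1 := ⟨i - 1, by omega⟩
      exact (h8 i (mem_range.2 c)).symm
    · exact rowLen_eq_zero.2 (by omega)
  ext ⟨i, j⟩
  simp only [YoungDiagram.mem_cells, YoungDiagram.mem_iff_lt_rowLen, h9]

theorem mem (i j : ℕ) : (i, j) ∈ μ ↔ (i = 0 ∧ j ≤ m) ∨ (i ≤ b ∧ j = 0) := by
  rw [YoungDiagram.mem_iff_lt_rowLen, H]
  split_ifs <;> omega

theorem colLen (j : ℕ) : μ.colLen j = if j = 0 then b + 1 else if j ≤ m then 1 else 0 := by
  apply eq_of_forall_lt_iff
  intro i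
  rw [← YoungDiagram.mem_iff_lt_colLen, H.mem]
  split_ifs <;> omega

theorem hook {β : ℝ} (hβ : β ≠ 0) : β ^ μ.card * hookProd β⁻¹ μ =
    (m + β * (b + 1)) * rise β m * (β ^ b * b.factorial) := by
  have h0 : β ^ μ.card = ∏ _s ∈ μ.cells, β := by rw [prod_const]
  have h5 : μ.cells = ({0} ×ˢ range (m + 1)) ∪ (Ico 1 (b + 1) ×ˢ {0}) := by
    ext ⟨i, j⟩
    simp only [YoungDiagram.mem_cells, H.mem, mem_union, mem_product, mem_singleton, mem_range,
      mem_Ico]
    omega
  have h6 : ∀ a l : ℝ, β * (β⁻¹ * a + l + 1) = a + β * (l + 1) := by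
    intro a l
    field_simp
    ring
  rw [h0, hookProd, ← prod_mul_distrib, h5, prod_union]
  · simp only [h6, prod_product, prod_singleton, prod_Ico_eq_prod_range, prod_range_succ',
      Nat.add_sub_cancel]
    rw [mul_comm (m + _ : ℝ), rise, ← prod_range_add_one_eq_factorial, Nat.cast_prod,
      ← card_range b, ← prod_const, card_range, ← prod_mul_distrib]
    refine congrArg₂ _ (congrArg₂ _ ?_ ?_) ?_
    · rw [← prod_range_reflect]
      refine prod_congr rfl fun j hj => ?_
      have := mem_range.1 hj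
      rw [H, H.colLen, if_pos rfl, if_neg (by omega), if_pos (by omega),
        show m + 1 - (m - 1 - j + 1) - 1 = j by omega]
      simp [add_comm]
    · simp [H 0, H.colLen]
    · rw [← prod_range_reflect]
      refine prod_congr rfl fun j hj => ?_
      have := mem_range.1 hj
      rw [H, H.colLen, if_neg (by omega), if_pos (by omega), if_pos rfl,
        show b + 1 - (1 + (b - 1 - j)) - 1 = j by omega]
      simp
  · rw [disjoint_left]
    rintro ⟨i, j⟩ h1 h2
    simp only [mem_product, mem_singleton, mem_Ico] at h1 h2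
    omega

end IsHook

end Pool.Agent.Lib.MP_19b511_co.Hk
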