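import Pool.Agent.Lib.MP_19b511_co.Hk.Hook

/-! Expansion in falling factorials with natural coefficients. -/

set_option autoImplicit false

noncomputable section

namespace Pool.Agent.Lib.MP_19b511_co.Hk

open Finset

/-- Sums of falling factorials of degrees `1, ..., n`. -/
def FN (n : ℕ) : AddSubmonoid (ℝ → ℝ) :=
  AddSubmonoid.closure {c | ∃ k < n, c = fun x => (descPochhammer ℝ (k + 1)).eval x}

theorem FN_zero (n : ℕ) : (fun _ => 0) ∈ FN n := zero_mem (FN n)

theorem FN_nat {n : ℕ} {c : ℝ → ℝ} (h : c ∈ FN n) (N : ℕ) : (fun x => N * c x) ∈ FN n := by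
  have := nsmul_mem h N
  rwa [show N • c = fun x => N * c x from funext fun x => by simp] at this

theorem FN_mul {n : ℕ} {c : ℝ → ℝ} (h : c ∈ FN n) : (fun x => x * c x) ∈ FN (n + 1) := by
  induction h using AddSubmonoid.closure_induction with
  | zero => simpa using FN_zero (n + 1)
  | add a b _ _ ha hb =>
    simp only [Pi.add_apply, mul_add]
    exact add_mem ha hb
  | mem c hc =>
    obtain ⟨k, hk, rfl⟩ := hc
    have h1 : (fun x => (descPochhammer ℝ (k + 1 + 1)).eval x) ∈ FN (n + 1) :=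
      AddSubmonoid.subset_closure ⟨k + 1, by omega, rfl⟩
    have h2 : (fun x => (descPochhammer ℝ (k + 1)).eval x) ∈ FN (n + 1) :=
      AddSubmonoid.subset_closure ⟨k, by omega, rfl⟩
    convert add_mem h1 (FN_nat h2 (k + 1)) using 1
    funext x
    rw [Pi.add_apply, descPochhammer_succ_eval (k + 1)]
    ring

theorem FN_pow {n : ℕ} {c : ℝ → ℝ} (h : c ∈ FN n) (b : ℕ) :
    (fun x => x ^ b * c x) ∈ FN (n + b) := by
  induction b with
  | zero => simpa using h
  | succ b ih =>
    simp only [pow_succ', mul_assoc]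
    exact FN_mul ih

theorem FN_coeff {n : ℕ} {c : ℝ → ℝ} (h : c ∈ FN n) : ∃ b : ℕ → ℕ,
    ∀ x, c x = ∑ k ∈ Icc 1 n, (b (n - k) : ℝ) * (descPochhammer ℝ k).eval x := by
  induction h using AddSubmonoid.closure_induction with
  | zero => exact ⟨0, by simp⟩
  | add a b _ _ ha hb =>
    obtain ⟨u, hu⟩ := ha
    obtain ⟨v, hv⟩ := hb
    exact ⟨u + v, fun x => by simp [hu, hv, add_mul, sum_add_distrib]⟩
  | mem c hc =>
    obtain ⟨k, hk, rfl⟩ := hc
    refine ⟨fun j => if j = n - (k + 1) then 1 else 0, fun x => ?_⟩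
    rw [sum_eq_single (k + 1)]
    · simp
    · intro j hj hne
      have := mem_Icc.1 hj
      have h1 : ¬ n - j = n - (k + 1) := by omega
      simp [h1]
    · intro hj
      exact absurd (mem_Icc.2 ⟨by omega, hk⟩) hj

theorem value_mem (m b : ℕ) {l : ℕ} {v : Sym} (hv : v ∈ Cone (l + 1)) :
    (fun β : ℝ => form 1 (((-1) ^ b * (m.factorial * (β ^ b * b.factorial)) : ℝ) •
      Phi β (m + 1 + b) b) v) ∈ FN (m + 1 + b) := by
  have key : ∀ q ∈ range (m + 1 + b + 1), ∀ k ∈ range (m + 1 + b - q + 1),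
      (fun β : ℝ => (-1) ^ b * m.factorial * β * (q * ((descPochhammer ℝ k).eval (β - 1) /
        k.factorial * form 1 (U k (m + 1 + b - q) * Psi q b) v))) ∈ FN (m + 1) := by
    intro q _ k hk
    have hk2 := mem_range.1 hk
    rcases Nat.eq_zero_or_pos q with rfl | h0
    · simpa using FN_zero (m + 1)
    rcases le_or_gt q b with h1 | h1
    · rw [Psi_eq_zero h0 h1, mul_zero, form_comm, ← formL_apply, map_zero]
      simpa using FN_zero (m + 1)
    obtain ⟨N, hN⟩ := form_U h1 k (m + 1 + b - q) hv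
    obtain ⟨M, hM⟩ := Nat.factorial_dvd_factorial (by omega : k ≤ m)
    have h2 : (fun x => (descPochhammer ℝ (k + 1)).eval x) ∈ FN (m + 1) :=
      AddSubmonoid.subset_closure ⟨k, by omega, rfl⟩
    convert FN_nat h2 (q * M * N) using 1
    funext β
    have h3 : (k.factorial : ℝ) ≠ 0 := by positivity
    rw [descPochhammer_succ_left, Polynomial.eval_mul, Polynomial.eval_comp, hM]
    push_cast
    rw [← hN]
    simp only [Polynomial.eval_X, Polynomial.eval_sub, Polynomial.eval_one]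
    field_simp
  convert FN_nat (FN_pow (sum_mem fun q hq => sum_mem (key q hq)) b) b.factorial using 1
  funext β
  rw [Phi_eq β (by omega), form_smul_left, form_smul_left, form_sum_left]
  simp only [Finset.sum_apply, mul_sum]
  refine sum_congr rfl fun q _ => ?_
  rw [form_smul_left, G_binom, sum_mul, form_sum_left]
  simp only [mul_sum]
  refine sum_congr rfl fun k _ => ?_
  rw [smul_mul_assoc, form_smul_left]
  ring

theorem hook_positive (μ lam : YoungDiagram) (h0 : 0 < μ.card) (hc : lam.card = μ.card)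
    (hμ : μ.rowLen 1 ≤ 1) : ∃ b : ℕ → ℕ, ∀ α : ℝ, 0 < α → (∃! P : Sym, IsJackP α⁻¹ μ P) ∧
      ∀ P : Sym, IsJackP α⁻¹ μ P →
        form 1 (α ^ μ.card • (hookProd α⁻¹ μ • P)) (schur lam) =
          ∑ k ∈ Icc 1 μ.card, (b (μ.card - k) : ℝ) * (descPochhammer ℝ k).eval α := by
  obtain ⟨m, b, H⟩ := exists_hook hμ h0
  have h1 : lam.colLen 0 ≠ 0 := fun h => by
    have := sum_row_eq (rowLen_eq_zero.2 h.le)
    simp at this
    omega
  obtain ⟨l, hl⟩ := Nat.exists_eq_succ_of_ne_zero h1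
  have hv : schur lam ∈ Cone (l + 1) := AddSubmonoid.subset_closure
    ⟨lam.rowLen, fun i j h => lam.rowLen_anti i j h, rowLen_eq_zero.2 hl.le, by
      rw [schur_eq, hl]⟩
  obtain ⟨c, hc⟩ := FN_coeff (value_mem m b hv)
  rw [← H.card] at hc
  refine ⟨c, fun α hα => ?_⟩
  obtain ⟨h2, h3⟩ := H.jack hα
  refine ⟨⟨_, h2, fun Q hQ => isJackP_unique (inv_pos.2 hα) μ _ _ hQ h2⟩, fun P hP => ?_⟩
  rw [isJackP_unique (inv_pos.2 hα) μ _ _ hP h2, smul_smul, smul_smul, mul_inv_cancel₀ h3,
    one_smul, hc]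

end Pool.Agent.Lib.MP_19b511_co.Hk
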