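import Pool.Agent.Lib.MP_19b511_co.Hk.Diagram
import Pool.Agent.Lib.MP_19b511_co.Hk.Branch

/-! The Jack function of a hook. -/

set_option autoImplicit false

noncomputable section

namespace Pool.Agent.Lib.MP_19b511_co.Hk

open Finset MvPolynomial

/-- Specialisation to `N` variables as an algebra map. -/
def iv (N : ℕ) : Sym →ₐ[ℝ] MvPolynomial (Fin N) ℝ := aeval fun k : ℕ => psum (Fin N) ℝ (k + 1)

theorem T_neg (a : ℤ) :
    T (G (-1) a) = Polynomial.C (G (-1) a) - Polynomial.X * Polynomial.C (G (-1) (a - 1)) := by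
  ext1 j
  rw [← Tc_apply, Tc_G]
  rcases j with _ | j
  · simp [cc_zero]
  · rw [Polynomial.coeff_sub, Polynomial.coeff_C_succ, Polynomial.coeff_X_mul, cc_neg_one,
      Polynomial.coeff_C]
    split_ifs with h
    · simp [h]
    · simp

theorem iv_succ (N : ℕ) (a : ℤ) : finSuccEquiv ℝ N (iv (N + 1) (G (-1) a)) =
    Polynomial.C (iv N (G (-1) a)) - Polynomial.X * Polynomial.C (iv N (G (-1) (a - 1))) := by
  have h := inVars_succ N (G (-1) a)
  rw [T_neg] at h
  simpa [iv, inVars] using h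

theorem iv_neg (N : ℕ) : ∀ a : ℤ, (N : ℤ) < a → iv N (G (-1) a) = 0 := by
  induction N with
  | zero =>
    intro a ha
    ext d
    have h := coeff_inVars 0 (fun _ => 0) (G (-1) a)
    rw [iter, coeff_G, if_neg (by simp [psize]; omega)] at h
    rw [coeff_zero, ← h, Subsingleton.elim d _]
    rfl
  | succ N ih =>
    intro a ha
    apply (finSuccEquiv ℝ N).injective
    rw [iv_succ, ih a (by omega), ih (a - 1) (by omega)]
    simp

theorem iv_top (N : ℕ) : iv N (G (-1) N) = (-1) ^ N * ∏ i, X i := by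
  induction N with
  | zero => simp [G_zero]
  | succ N ih =>
    apply (finSuccEquiv ℝ N).injective
    rw [iv_succ, iv_neg N _ (by omega), Nat.cast_succ, add_sub_cancel_right, ih,
      Fin.prod_univ_succ]
    simp [finSuccEquiv_X_zero, finSuccEquiv_X_succ, pow_succ]
    ring

theorem iv_Phi (β : ℝ) {n b N : ℕ} (hb : b ≤ n) (hN : N ≤ b) : iv N (Phi β n b) = 0 := by
  have h := congrArg (iv N) (Phi_full β n)
  rw [map_zero] at h
  rw [← h, Phi, Phi, map_sum, map_sum]
  refine sum_subset (range_subset_range.2 (by omega)) fun s _ hs => ?_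
  rw [map_smul, map_mul, iv_neg N s (by simp only [mem_range] at hs; omega), mul_zero, smul_zero]

theorem mcoef_iv {ν : YoungDiagram} {N : ℕ} (h : ν.rowLen N = 0) (f : Sym) : mcoef ν f =
    coeff (Finsupp.equivFunOnFinite.symm fun i : Fin N => ν.rowLen i) (iv N f) := by
  rw [mcoef_iter h, ← coeff_inVars]
  rfl

theorem homog_Phi (β : ℝ) {n b : ℕ} (hb : b ≤ n) : Homog n (Phi β n b) := by
  refine Homog.sum _ _ fun s hs => Homog.smul ?_ _
  have h := (homog_G β (n - s)).mul (homog_G (-1) s)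
  rwa [Nat.sub_add_cancel (by have := mem_range.1 hs; omega)] at h

/-- Span of the products of total degree `s`. -/
def W (β : ℝ) (s : ℕ) : Submodule ℝ Sym := Submodule.span ℝ
  {x | ∃ L : List ℕ, (∀ a ∈ L, 0 < a) ∧ L.sum = s ∧ x = (L.map fun a : ℕ => G β a).prod}

theorem W_mul {β : ℝ} {s t : ℕ} {x y : Sym} (hx : x ∈ W β s) (hy : y ∈ W β t) :
    x * y ∈ W β (s + t) := by
  have h := Submodule.mul_mem_mul hx hy
  rw [W, W, Submodule.span_mul_span] at h
  refine Submodule.span_mono ?_ h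
  rintro _ ⟨_, ⟨L, h1, h2, rfl⟩, _, ⟨K, h3, h4, rfl⟩, rfl⟩
  refine ⟨L ++ K, fun a ha => (List.mem_append.1 ha).elim (h1 a) (h3 a), by simp [h2, h4], by simp⟩

theorem G_mem_self (β : ℝ) (s : ℕ) : G β s ∈ W β s := by
  rcases s with _ | s
  · exact Submodule.subset_span ⟨[], by simp, rfl, by simp [G_zero]⟩
  · exact Submodule.subset_span ⟨[s + 1], by simp, by simp, by simp⟩

theorem X_mem {β : ℝ} (hβ : β ≠ 0) (k : ℕ) : (X k : Sym) ∈ W β (k + 1) := by
  induction k using Nat.strong_induction_on with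
  | _ k ih =>
    have h := G_rec β (k + 1)
    rw [sum_range_succ, sub_self, G_zero, mul_one, smul_add, ← sub_eq_iff_eq_add'] at h
    rw [← Submodule.smul_mem_iff _ hβ, ← h]
    refine sub_mem (Submodule.smul_mem _ _ (G_mem_self β _))
      (Submodule.smul_mem _ _ (sum_mem fun j hj => ?_))
    have hj2 := mem_range.1 hj
    have h1 := W_mul (ih j hj2) (G_mem_self β (k - j))
    rwa [show j + 1 + (k - j) = k + 1 by omega,
      show ((k - j : ℕ) : ℤ) = (k + 1 : ℕ) - (j + 1 : ℕ) by omega] at h1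

theorem G_mem {β : ℝ} (hβ : β ≠ 0) (γ : ℝ) (s : ℕ) : G γ s ∈ W β s := by
  induction s using Nat.strong_induction_on with
  | _ s ih =>
    rcases s with _ | s
    · have := G_mem_self β 0
      rwa [Nat.cast_zero, G_zero, ← G_zero γ] at this
    rw [← Submodule.smul_mem_iff _ (by positivity : ((s + 1 : ℕ) : ℝ) ≠ 0), G_rec]
    refine Submodule.smul_mem _ _ (sum_mem fun j hj => ?_)
    have hj2 := mem_range.1 hj
    have h1 := W_mul (X_mem hβ j) (ih (s - j) (by omega))
    rwa [show j + 1 + (s - j) = s + 1 by omega,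
      show ((s - j : ℕ) : ℤ) = (s + 1 : ℕ) - (j + 1 : ℕ) by omega] at h1

namespace IsHook

variable {μ : YoungDiagram} {m b : ℕ} (H : IsHook μ m b)
include H

theorem orth {β : ℝ} (hβ : β ≠ 0) (g : Sym) (hg : Below μ g) :
    form β⁻¹ (Phi β μ.card b) g = 0 := by
  have hc := H.card
  rw [Phi, form_sum_left]
  refine sum_eq_zero fun s hs => ?_
  have hs2 := mem_range.1 hs
  have key : ∀ x ∈ W β s, form β⁻¹ (G β (μ.card - s : ℕ) * x) g = 0 := by
    intro x hx
    induction hx using Submodule.span_induction with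
    | zero => rw [mul_zero, form_comm, ← formL_apply, map_zero]
    | add x y _ _ hx hy => rw [mul_add, form_add_left, hx, hy, add_zero]
    | smul a x _ hx => rw [mul_smul_comm, form_smul_left, hx, mul_zero]
    | mem x hx =>
      obtain ⟨L, h1, h2, rfl⟩ := hx
      obtain ⟨ν, h3, h4, h5, h6⟩ := exists_diagram (mul_inv_cancel₀ hβ) ((μ.card - s) :: L)
        (List.forall_mem_cons.2 ⟨by omega, h1⟩)
      have h7 := List.length_le_sum_of_one_le L h1
      have h8 := h5 _ List.mem_cons_self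
      rw [List.sum_cons] at h3
      rw [List.length_cons] at h4
      have h9 := h6 g
      rw [List.map_cons, List.prod_cons] at h9
      rw [h9]
      by_contra h10
      obtain ⟨h11, h12⟩ := hg.2 ν (by omega) h10
      exact h12 (H.eq_of_dom (by omega) h11 (by omega) (by omega))
  rw [form_smul_left, key _ (G_mem hβ _ s), mul_zero]

theorem lead (β : ℝ) :
    mcoef μ (Phi β μ.card b) = (-1) ^ b * ((m + β * (b + 1)) * cc β m) := by
  have hc := H.card
  have h1 := iv_Phi β (n := μ.card) (b := b + 1) (N := b + 1) (by omega) le_rfl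
  rw [Phi, sum_range_succ, ← Phi, map_add, add_eq_zero_iff_eq_neg, map_smul, map_mul, iv_top,
    show μ.card - (b + 1) = m by omega] at h1
  have h2 : (∏ i, X i : MvPolynomial (Fin (b + 1)) ℝ) =
      monomial (Finsupp.equivFunOnFinite.symm fun _ => 1) 1 := by
    rw [monomial_eq, Finsupp.prod_fintype _ _ (by simp)]
    simp
  have h3 : (Finsupp.equivFunOnFinite.symm fun i : Fin (b + 1) => μ.rowLen i) =
      (Finsupp.equivFunOnFinite.symm fun _ => 1) +
        Finsupp.equivFunOnFinite.symm fun i : Fin (b + 1) => if (i : ℕ) = 0 then m else 0 := by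
    ext i
    have := i.2
    simp only [Finsupp.equivFunOnFinite_symm_apply_apply, Finsupp.add_apply, H i]
    split_ifs <;> omega
  have h4 := coeff_inVars (b + 1) (fun i => if i = 0 then m else 0) (G β m)
  rw [iter_stab 1 _ _ _ (by omega) (fun i hi => if_neg (by omega)), iter, iter, if_pos rfl, Tc_G,
    sub_self, G_zero] at h4
  have h5 : ((-1) ^ (b + 1) : MvPolynomial (Fin (b + 1)) ℝ) = C ((-1) ^ (b + 1)) := by simp
  rw [mcoef_iv (N := b + 1) (by simp [H (b + 1)]), h1, h2, h3, h5, coeff_neg, coeff_smul,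
    mul_left_comm, coeff_C_mul, mul_comm (iv _ _), coeff_monomial_mul]
  rw [show iv (b + 1) (G β m) = inVars (b + 1) (G β m) from rfl, h4]
  simp [pow_succ]
  ring

theorem jack {β : ℝ} (hβ : 0 < β) : IsJackP β⁻¹ μ ((β ^ μ.card * hookProd β⁻¹ μ)⁻¹ •
    (((-1) ^ b * (m.factorial * (β ^ b * b.factorial)) : ℝ) • Phi β μ.card b)) ∧
      β ^ μ.card * hookProd β⁻¹ μ ≠ 0 := by
  have hc := H.card
  have h0 : 0 < rise β m := prod_pos fun i _ => by positivity
  have h1 : β ^ μ.card * hookProd β⁻¹ μ ≠ 0 := by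
    rw [H.hook hβ.ne']
    positivity
  refine ⟨⟨((homog_Phi β (by omega)).smul _).smul _, ?_, fun ν hν h => H.dom hν fun h2 => h ?_,
    fun g hg => ?_⟩, h1⟩
  · rw [mcoef_smul, mcoef_smul, H.lead, inv_mul_eq_one₀ h1, H.hook hβ.ne', cc]
    have h2 : ((-1 : ℝ) ^ b) * (-1) ^ b = 1 := by rw [← mul_pow]; simp
    have h3 : (m.factorial : ℝ) ≠ 0 := by positivity
    field_simp
    rw [sq, h2]
  · rw [mcoef_smul, mcoef_smul, mcoef_iv h2, iv_Phi β (by omega) le_rfl]
    simp
  · rw [form_smul_left, form_smul_left, H.orth hβ.ne' g hg, mul_zero, mul_zero]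

end IsHook

end Pool.Agent.Lib.MP_19b511_co.Hk
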